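import Mathlib
import Pool.Agent.H514R3.Fin

/-!
# Ergodic nice recurrence coincides with nice recurrence

A set `R` of positive integers is a set of nice recurrence as soon as it is a set of ergodic nice
recurrence.  Given a system and a set `A` witnessing that `R` is not a set of nice recurrence, the
autocorrelation of `1_A - μ(A)` is the Fourier transform of a finite measure (Herglotz).  Its atom at
`0` is dropped, finitely many of the other atoms are realised on a compact monothetic group (an ergodic
rotation), the continuous part is realised by a stationary Gaussian process (weakly mixing by Wiener),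
and the resulting ergodic process is turned into a set by truncation and independent uniform noise.
-/

set_option autoImplicit false
open MeasureTheory

namespace Pool.Agent.Results.MP_e00215_an.ErgodicNiceIsNice

universe u v

/-- `R` is a set of nice recurrence: for every measure preserving system `(X, μ, T)` on a probability
space, every measurable `A` with `μ A > 0` and every `ε > 0` there is `n ∈ R` with
`μ (A ∩ T⁻ⁿ A) > μ(A)² - ε`. -/
def NiceRecurrence (R : Set ℕ) : Prop :=
  ∀ (X : Type u) [MeasurableSpace X] (μ : Measure X) [IsProbabilityMeasure μ] (T : X → X),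
    MeasurePreserving T μ μ → ∀ A : Set X, MeasurableSet A → 0 < μ A → ∀ ε : ℝ, 0 < ε →
      ∃ n ∈ R, (μ A).toReal ^ 2 - ε < (μ (A ∩ T^[n] ⁻¹' A)).toReal

/-- `R` is a set of ergodic nice recurrence: the same condition for ergodic systems only. -/
def ErgodicNiceRecurrence (R : Set ℕ) : Prop :=
  ∀ (X : Type v) [MeasurableSpace X] (μ : Measure X) [IsProbabilityMeasure μ] (T : X → X),
    Ergodic T μ → ∀ A : Set X, MeasurableSet A → 0 < μ A → ∀ ε : ℝ, 0 < ε →
      ∃ n ∈ R, (μ A).toReal ^ 2 - ε < (μ (A ∩ T^[n] ⁻¹' A)).toReal

/-- from ergodic nice recurrence (in any universe) to nice recurrence (in any universe) -/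
theorem nice_of_ergodicNice (R : Set ℕ) (h : ErgodicNiceRecurrence.{v} R) : NiceRecurrence.{u} R := by
  intro X _ μ _ T hT A hA _ ε hε
  by_contra hcon
  push Not at hcon
  obtain ⟨Y, mY, ν, pν, S, B, hS, hB, hB0, ε', hε', hR⟩ :=
    Pool.Agent.H514R3.core hT hA hε R (fun n hn => hcon n hn)
  -- transport to the universe `v`
  let e : Y ≃ᵐ ULift.{v, 0} Y := MeasurableEquiv.ulift.symm
  have hmp : MeasurePreserving e ν (ν.map e) := ⟨e.measurable, rfl⟩
  have pν' : IsProbabilityMeasure (ν.map e) := Measure.isProbabilityMeasure_map e.measurable.aemeasurable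
  have hS' : Ergodic (e ∘ S ∘ e.symm) (ν.map e) := hmp.ergodic_conjugate_iff.2 hS
  have hB' : MeasurableSet (e.symm ⁻¹' B) := e.symm.measurable hB
  have hval : ∀ D : Set Y, MeasurableSet D → (ν.map e) (e.symm ⁻¹' D) = ν D := by
    intro D hD
    rw [e.map_apply, ← Set.preimage_comp]
    simp
  obtain ⟨n, hn, hlt⟩ := h (ULift.{v, 0} Y) (ν.map e) (e ∘ S ∘ e.symm) hS' (e.symm ⁻¹' B) hB'
    (by rw [hval B hB]; exact hB0) ε' hε'
  have hit : ∀ n y, (e ∘ S ∘ e.symm)^[n] y = e (S^[n] (e.symm y)) := by
    intro n y
    induction n with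
    | zero => simp
    | succ n ih => rw [Function.iterate_succ_apply', ih, Function.iterate_succ_apply']; simp
  have hset : e.symm ⁻¹' B ∩ (e ∘ S ∘ e.symm)^[n] ⁻¹' (e.symm ⁻¹' B) = e.symm ⁻¹' (B ∩ S^[n] ⁻¹' B) := by
    ext y
    simp only [Set.mem_inter_iff, Set.mem_preimage, hit, MeasurableEquiv.symm_apply_apply]
  rw [hset, hval _ (hB.inter ((hS.toMeasurePreserving.iterate n).measurable hB)), hval B hB] at hlt
  exact absurd (hR n hn) (not_le.2 hlt)

/-- **Main result.** For every set `R` of natural numbers, in particular for every `R ⊆ {1, 2, ...}`,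
`R` is a set of nice recurrence if and only if it is a set of ergodic nice recurrence (whatever the
universes in which the systems live). -/
theorem result (R : Set ℕ) : NiceRecurrence.{u} R ↔ ErgodicNiceRecurrence.{v} R := by
  constructor
  · intro h
    have h1 : ErgodicNiceRecurrence.{u} R := by
      intro X _ μ _ T hT A hA hA0 ε hε
      exact h X μ T hT.toMeasurePreserving A hA hA0 ε hε
    have h2 : NiceRecurrence.{v} R := nice_of_ergodicNice R h1
    intro X _ μ _ T hT A hA hA0 ε hε
    exact h2 X μ T hT.toMeasurePreserving A hA hA0 ε hε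
  · exact nice_of_ergodicNice R

end Pool.Agent.Results.MP_e00215_an.ErgodicNiceIsNice
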